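import Mathlib
import Pool.Agent.W262.SH.Stm

/-! Duplication and translation by points of order two on `y² = x (x - a) (x - b)`. -/

set_option autoImplicit false
set_option linter.unusedSectionVars false
set_option linter.unusedVariables false

namespace Pool.Agent.W333.SH

open WeierstrassCurve Pool.Agent.W262.SH

open scoped Classical

variable {K : Type} [Field K] [CharZero K] {W : WeierstrassCurve K} {a b : K}

theorem alg1 {u v : K} (hv : v ≠ 0) (h : v ^ 2 = u * (u - a) * (u - b)) :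
    ((3 * u ^ 2 - 2 * (a + b) * u + a * b) / (2 * v)) ^ 2 + (a + b) - 2 * u =
      ((u ^ 2 - a * b) / (2 * v)) ^ 2 := by
  field_simp
  linear_combination (4*(a+b-2*u)) * h

theorem alg2 {u v : K} (hv : v ≠ 0) (h : v ^ 2 = u * (u - a) * (u - b)) :
    ((3 * u ^ 2 - 2 * (a + b) * u + a * b) / (2 * v)) ^ 2 + (a + b) - 2 * u - a =
      (((u - a) ^ 2 - a * (a - b)) / (2 * v)) ^ 2 := by
  field_simp
  linear_combination (4*(b-2*u)) * h

/-- translation by `(0, 0)` -/
theorem t0 {u v : K} (hu : u ≠ 0) (h : v ^ 2 = u * (u - a) * (u - b)) :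
    (v / (u - 0)) ^ 2 + (a + b) - u - 0 = a * b / u := by
  rw [sub_zero, div_pow, h]
  field_simp
  ring

theorem ta {u v : K} (hu : u - a ≠ 0) (h : v ^ 2 = u * (u - a) * (u - b)) :
    (v / (u - a)) ^ 2 + (a + b) - u - a = a * (u - b) / (u - a) := by
  rw [div_pow, h]
  field_simp
  ring

theorem tb {u v : K} (hu : u - b ≠ 0) (h : v ^ 2 = u * (u - a) * (u - b)) :
    (v / (u - b)) ^ 2 + (a + b) - u - b = b * (u - a) / (u - b) := by
  rw [div_pow, h]
  field_simp
  ring

theorem s0 {u v : K} (hu : u ≠ 0) :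
    -(v / (u - 0) * (a * b / u - u) + v) = - (a * b * v) / u ^ 2 := by
  rw [sub_zero]
  field_simp
  ring

theorem sa {u v : K} (hu : u - a ≠ 0)  :
    -(v / (u - a) * (a * (u - b) / (u - a) - u) + v) = -(a * (a - b) * v) / (u - a) ^ 2 := by
  field_simp
  ring

theorem sb {u v : K} (hu : u - b ≠ 0)  :
    -(v / (u - b) * (b * (u - a) / (u - b) - u) + v) = -(b * (b - a) * v) / (u - b) ^ 2 := by
  field_simp
  ring

theorem g00 {u v : K} (ha : a ≠ 0) (hb : b ≠ 0) (hab : a - b ≠ 0) (hv : v ≠ 0) (hu : u ≠ 0) :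
    ((a * b / u - 0) ^ 2 - a * b) / (2 * (-(a * b * v) / u ^ 2)) =
     ((u - 0) ^ 2 - a * b) / (2 * v) := by
  field_simp
  ring

theorem g0a {u v : K} (ha : a ≠ 0) (hb : b ≠ 0) (hab : a - b ≠ 0) (hv : v ≠ 0) (hu : u ≠ 0) :
    ((a * b / u - a) ^ 2 - a * (a - b)) / (2 * (-(a * b * v) / u ^ 2)) =
     -(((u - a) ^ 2 - a * (a - b)) / (2 * v)) := by
  field_simp
  ring

theorem ga0 {u v : K} (ha : a ≠ 0) (hb : b ≠ 0) (hab : a - b ≠ 0) (hv : v ≠ 0) (hu : u - a ≠ 0) :
    ((a * (u - b) / (u - a) - 0) ^ 2 - a * b) / (2 * (-(a * (a - b) * v) / (u - a) ^ 2)) =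
     -(((u - 0) ^ 2 - a * b) / (2 * v)) := by
  field_simp
  ring

theorem gaa {u v : K} (ha : a ≠ 0) (hb : b ≠ 0) (hab : a - b ≠ 0) (hv : v ≠ 0) (hu : u - a ≠ 0) :
    ((a * (u - b) / (u - a) - a) ^ 2 - a * (a - b)) / (2 * (-(a * (a - b) * v) / (u - a) ^ 2)) =
     ((u - a) ^ 2 - a * (a - b)) / (2 * v) := by
  field_simp
  ring

theorem gb0 {u v : K} (ha : a ≠ 0) (hb : b ≠ 0) (hab : b - a ≠ 0) (hv : v ≠ 0) (hu : u - b ≠ 0) :
    ((b * (u - a) / (u - b) - 0) ^ 2 - a * b) / (2 * (-(b * (b - a) * v) / (u - b) ^ 2)) =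
     -(((u - 0) ^ 2 - a * b) / (2 * v)) := by
  field_simp
  ring

theorem gba {u v : K} (ha : a ≠ 0) (hb : b ≠ 0) (hab : b - a ≠ 0) (hv : v ≠ 0) (hu : u - b ≠ 0) :
    ((b * (u - a) / (u - b) - a) ^ 2 - a * (a - b)) / (2 * (-(b * (b - a) * v) / (u - b) ^ 2)) =
     -(((u - a) ^ 2 - a * (a - b)) / (2 * v)) := by
  field_simp
  ring

theorem eqn (hW : IsW W a b) {u v : K} (h : W.toAffine.Nonsingular u v) :
    v ^ 2 = u * (u - a) * (u - b) := by
  have h1 := (Affine.equation_iff u v).1 h.1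
  obtain ⟨h2, h3, h4, h5, h6⟩ := hW
  rw [h2, h3, h4, h5, h6] at h1
  linear_combination h1

theorem negY_eq (hW : IsW W a b) (x y : K) : W.toAffine.negY x y = -y := by
  rw [Affine.negY]
  rw [hW.1, hW.2.2.1]; ring

theorem dbl (hW : IsW W a b) {u v : K} (h : W.toAffine.Nonsingular u v) (hv : v ≠ 0) :
    ∃ (x y : K) (h' : W.toAffine.Nonsingular x y),
    (.some u v h : W.toAffine.Point) + .some u v h = .some x y h' ∧
    x = gg W 0 (a * b) (.some u v h) ^ 2 ∧ x - a = gg W a (a * (a - b)) (.some u v h) ^ 2 := by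
  have hy : v ≠ W.toAffine.negY u v := by
    rw [negY_eq hW]
    intro h1
    exact hv (self_eq_neg.1 h1)
  refine ⟨_, _, _, Affine.Point.add_self_of_Y_ne hy, ?_, ?_⟩
  · rw [Affine.slope_of_Y_ne rfl hy, negY_eq hW, Affine.addX]
    have h1 := eqn hW h
    have h8 := alg1 (a := a) (b := b) hv h1
    obtain ⟨h2, h3, h4, h5, h6⟩ := hW
    rw [h2, h3, h5]
    simp only [gg]
    rw [sub_zero, ← h8, show v - -v = 2 * v by ring]
    ring
  · rw [Affine.slope_of_Y_ne rfl hy, negY_eq hW, Affine.addX]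
    have h1 := eqn hW h
    have h8 := alg2 (a := a) (b := b) hv h1
    obtain ⟨h2, h3, h4, h5, h6⟩ := hW
    rw [h2, h3, h5]
    simp only [gg]
    rw [← h8, show v - -v = 2 * v by ring]
    ring

theorem tr (hW : IsW W a b) {u v : K} (h : W.toAffine.Nonsingular u v)
    {e : K} (he : W.toAffine.Nonsingular e 0) (hue : u ≠ e) :
    ∃ (u' v' : K) (h' : W.toAffine.Nonsingular u' v'),
      (.some u v h : W.toAffine.Point) + .some e 0 he = .some u' v' h' ∧
      u' = (v / (u - e)) ^ 2 + (a + b) - u - e ∧ v' = -(v / (u - e) * (u' - u) + v) := by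
  refine ⟨_, _, _, Affine.Point.add_of_X_ne hue, ?_, ?_⟩
  · rw [Affine.slope_of_X_ne hue, Affine.addX, hW.1, hW.2.1]
    ring
  · rw [Affine.addY, negY_eq hW, Affine.negAddY, Affine.slope_of_X_ne hue]
    ring

theorem isX_iff {e x y : K} (h : W.toAffine.Nonsingular x y) :
    IsX W e (.some x y h) ↔ x = e := by
  unfold IsX
  constructor
  · rintro (h1 | ⟨y', h', h1⟩)
    · exact absurd h1 (Affine.Point.some_ne_zero h)
    · injection h1
  · rintro rfl
    exact Or.inr ⟨y, h, rfl⟩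

theorem two_tor (hW : IsW W a b) {x y : K} (h : W.toAffine.Nonsingular x y)
    (hT : (.some x y h : W.toAffine.Point) + .some x y h = 0) :
    y = 0 ∧ (x = 0 ∨ x = a ∨ x = b) := by
  have h1 : y = 0 := by
    by_contra hy0
    have hy : y ≠ W.toAffine.negY x y := by
      rw [negY_eq hW]
      intro h1
      exact hy0 (self_eq_neg.1 h1)
    rw [Affine.Point.add_self_of_Y_ne hy] at hT
    exact Affine.Point.some_ne_zero _ hT
  refine ⟨h1, ?_⟩
  have h2 := eqn hW h
  rw [h1, zero_pow two_ne_zero] at h2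
  rcases mul_eq_zero.1 h2.symm with h3 | h3
  · rcases mul_eq_zero.1 h3 with h4 | h4
    · exact Or.inl h4
    · exact Or.inr (Or.inl (sub_eq_zero.1 h4))
  · exact Or.inr (Or.inr (sub_eq_zero.1 h3))

theorem dup : DUP := by
  intro K _ _ W a b hW ha hb hab u v h hv
  refine ⟨dbl hW h hv, ?_⟩
  intro T hT
  have h1 := eqn hW h
  have hab' : a - b ≠ 0 := sub_ne_zero.2 hab
  have hba' : b - a ≠ 0 := sub_ne_zero.2 hab.symm
  have hu0 : u ≠ 0 := by
    rintro rfl
    apply hv
    rw [zero_mul, zero_mul] at h1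
    exact pow_eq_zero_iff two_ne_zero |>.1 h1
  have hua : u - a ≠ 0 := by
    intro h2
    apply hv
    rw [h2, mul_zero, zero_mul] at h1
    exact pow_eq_zero_iff two_ne_zero |>.1 h1
  have hub : u - b ≠ 0 := by
    intro h2
    apply hv
    rw [h2, mul_zero] at h1
    exact pow_eq_zero_iff two_ne_zero |>.1 h1
  rcases T with _ | ⟨x, y, hxy⟩
  · have hz : (Affine.Point.zero : W.toAffine.Point) = 0 := rfl
    rw [hz, add_zero]
    have hX : ∀ e, IsX W e (0 : W.toAffine.Point) := fun e => Or.inl rfl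
    exact ⟨⟨u, v, h, hv, rfl⟩, fun _ => rfl, fun hn => absurd (hX 0) hn, fun _ => rfl,
      fun hn => absurd (hX a) hn⟩
  · obtain ⟨hy, hx⟩ := two_tor hW hxy hT
    subst hy
    rw [isX_iff, isX_iff]
    rcases hx with rfl | rfl | rfl
    · obtain ⟨u', v', h', e1, e2, e3⟩ := tr hW h hxy hu0
      rw [t0 hu0 h1] at e2
      rw [e2, s0 hu0] at e3
      subst e2
      subst e3
      rw [e1]
      refine ⟨⟨_, _, h', ?_, rfl⟩, fun _ => ?_, fun hn => absurd rfl hn, fun hn => absurd hn ha.symm,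
        fun _ => ?_⟩
      · exact div_ne_zero (neg_ne_zero.2 (mul_ne_zero (mul_ne_zero ha hb) hv)) (pow_ne_zero 2 hu0)
      · simp only [gg]
        exact g00 ha hb hab' hv hu0
      · simp only [gg]
        exact g0a ha hb hab' hv hu0
    · obtain ⟨u', v', h', e1, e2, e3⟩ := tr hW h hxy (sub_ne_zero.1 hua)
      rw [ta hua h1] at e2
      rw [e2, sa hua] at e3
      subst e2
      subst e3
      rw [e1]
      refine ⟨⟨_, _, h', ?_, rfl⟩, fun hn => absurd hn ha, fun _ => ?_, fun _ => ?_,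
        fun hn => absurd rfl hn⟩
      · exact div_ne_zero (neg_ne_zero.2 (mul_ne_zero (mul_ne_zero ha hab') hv))
          (pow_ne_zero 2 hua)
      · simp only [gg]
        exact ga0 ha hb hab' hv hua
      · simp only [gg]
        exact gaa ha hb hab' hv hua
    · obtain ⟨u', v', h', e1, e2, e3⟩ := tr hW h hxy (sub_ne_zero.1 hub)
      rw [tb hub h1] at e2
      rw [e2, sb hub] at e3
      subst e2
      subst e3
      rw [e1]
      refine ⟨⟨_, _, h', ?_, rfl⟩, fun hn => absurd hn hb, fun _ => ?_,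
        fun hn => absurd hn hab.symm, fun _ => ?_⟩
      · exact div_ne_zero (neg_ne_zero.2 (mul_ne_zero (mul_ne_zero hb hba') hv))
          (pow_ne_zero 2 hub)
      · simp only [gg]
        exact gb0 ha hb hba' hv hub
      · simp only [gg]
        exact gba ha hb hba' hv hub

end Pool.Agent.W333.SH
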